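import Mathlib

/-!
# Every bipartite graph is chromatically related to `K₂`

For a graph `F` and a graph `H`, an `F`-free colouring of `H` with `k` colours is a partition of
the vertices of `H` into `k` classes none of which contains `F` as an induced subgraph.
`χ(H : -F)` is the least such `k`.  We prove that for every finite bipartite graph `G` with at
least two vertices and every `l ≥ 2` there is a finite graph `H` with
`χ(H) = χ(H : -K₂) = χ(H : -G) = l`.
-/

namespace Pool.Agent.Results.MP_fbe9f6_co.BipartiteRelated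

open SimpleGraph

/-- `H` has an `F`-free colouring with `k` colours: the vertices of `H` can be coloured with `k`
colours so that no colour class contains `F` as an induced subgraph. -/
def FreeColorable {V W : Type} (F : SimpleGraph V) (H : SimpleGraph W) (k : ℕ) : Prop :=
  ∃ c : W → Fin k, ∀ i : Fin k, IsEmpty (F ↪g H.induce {v | c v = i})

/-- `IsFreeChromaticNumber F H l` says that `χ(H : -F) = l`. -/
def IsFreeChromaticNumber {V W : Type} (F : SimpleGraph V) (H : SimpleGraph W) (l : ℕ) : Prop :=
  IsLeast {k : ℕ | FreeColorable F H k} l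

/-- `F` and `G` are `l`-chromatically related: some finite graph `H` has
`χ(H : -F) = χ(H : -G) = l`. -/
def LRelated {V V' : Type} (l : ℕ) (F : SimpleGraph V) (G : SimpleGraph V') : Prop :=
  ∃ (W : Type) (_ : Fintype W) (H : SimpleGraph W),
    IsFreeChromaticNumber F H l ∧ IsFreeChromaticNumber G H l

/-- `F` and `G` are chromatically related: they are `l`-chromatically related for all `l ≥ 2`. -/
def Related {V V' : Type} (F : SimpleGraph V) (G : SimpleGraph V') : Prop :=
  ∀ l : ℕ, 2 ≤ l → LRelated l F G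

/-- The complete graph on two vertices. -/
abbrev K2 : SimpleGraph (Fin 2) := ⊤

/-- Lexicographic product. -/
def lex {V W : Type} (G : SimpleGraph V) (F : SimpleGraph W) : SimpleGraph (V × W) where
  Adj x y := G.Adj x.1 y.1 ∨ (x.1 = y.1 ∧ F.Adj x.2 y.2)
  symm := ⟨fun x y h => by
    rcases h with h | ⟨h1, h2⟩
    · exact Or.inl h.symm
    · exact Or.inr ⟨h1.symm, h2.symm⟩⟩
  loopless := ⟨fun x h => by
    rcases h with h | ⟨_, h2⟩
    · exact G.loopless.irrefl _ h
    · exact F.loopless.irrefl _ h2⟩

/-- Vertex Ramsey theorem for induced subgraphs (lexicographic powers). -/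
theorem vertexRamsey {V : Type} [Fintype V] [Nonempty V] (G : SimpleGraph V) (r : ℕ) :
    ∃ (W : Type) (_ : Fintype W) (F : SimpleGraph W),
      ∀ c : W → Fin r, ∃ φ : G ↪g F, ∃ a : Fin r, ∀ v, c (φ v) = a := by
  induction r with
  | zero =>
    refine ⟨V, inferInstance, G, fun c => ?_⟩
    exact (c (Classical.arbitrary V)).elim0
  | succ r ih =>
    obtain ⟨W, hW, F, hF⟩ := ih
    refine ⟨V × W, inferInstance, lex G F, fun c => ?_⟩
    by_cases h : ∃ v : V, ∀ w : W, c (v, w) ≠ Fin.last r
    · obtain ⟨v, hv⟩ := h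
      obtain ⟨φ, a, ha⟩ := hF (fun w => (c (v, w)).castPred (hv w))
      refine ⟨⟨⟨fun u => (v, φ u), fun x y hxy => φ.injective (Prod.ext_iff.1 hxy).2⟩, ?_⟩,
        a.castSucc, fun u => ?_⟩
      · intro x y
        change (G.Adj v v ∨ (v = v ∧ F.Adj (φ x) (φ y))) ↔ G.Adj x y
        have : ¬ G.Adj v v := G.loopless.irrefl v
        simp only [this, true_and, false_or]
        exact φ.map_adj_iff
      · have := ha u
        change c (v, φ u) = a.castSucc
        rw [← this]
        simp
    · push Not at h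
      choose w hw using h
      refine ⟨⟨⟨fun u => (u, w u), fun x y hxy => (Prod.ext_iff.1 hxy).1⟩, ?_⟩,
        Fin.last r, fun u => hw u⟩
      intro x y
      change (G.Adj x y ∨ (x = y ∧ F.Adj (w x) (w y))) ↔ G.Adj x y
      constructor
      · rintro (h | ⟨rfl, h⟩)
        · exact h
        · exact absurd h (F.loopless.irrefl _)
      · exact Or.inl

/-- Vertex Ramsey theorem with an arbitrary finite set of colours. -/
theorem vertexRamsey' {V : Type} [Fintype V] [Nonempty V] (G : SimpleGraph V)
    (C : Type) [Fintype C] :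
    ∃ (W : Type) (_ : Fintype W) (F : SimpleGraph W),
      ∀ c : W → C, ∃ φ : G ↪g F, ∃ a : C, ∀ v, c (φ v) = a := by
  obtain ⟨W, hW, F, hF⟩ := vertexRamsey G (Fintype.card C)
  refine ⟨W, hW, F, fun c => ?_⟩
  obtain ⟨φ, a, ha⟩ := hF (fun w => Fintype.equivFin C (c w))
  refine ⟨φ, (Fintype.equivFin C).symm a, fun v => ?_⟩
  rw [← ha v]
  simp

/-- The product of `F` with the complete graph `K_l`. -/
def layered {W : Type} (F : SimpleGraph W) (l : ℕ) : SimpleGraph (W × Fin l) where
  Adj x y := F.Adj x.1 y.1 ∧ x.2 ≠ y.2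
  symm := ⟨fun x y h => ⟨h.1.symm, h.2.symm⟩⟩
  loopless := ⟨fun x h => h.2 rfl⟩

/-- A `K₂`-free colouring is the same as a proper colouring. -/
theorem freeColorable_K2_iff {W : Type} (H : SimpleGraph W) (k : ℕ) :
    FreeColorable K2 H k ↔ H.Colorable k := by
  constructor
  · rintro ⟨c, hc⟩
    refine ⟨Coloring.mk c fun {x y} hxy heq => ?_⟩
    refine (hc (c y)).false ⟨⟨fun i => if i = 0 then ⟨x, heq⟩ else ⟨y, rfl⟩, ?_⟩, ?_⟩
    · intro i j hij
      have hne : x ≠ y := hxy.ne
      fin_cases i <;> fin_cases j <;> simp at hij ⊢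
      · exact hne hij
      · exact hne hij.symm
    · intro i j
      fin_cases i <;> fin_cases j <;> simp [hxy, hxy.symm]
  · rintro ⟨c⟩
    refine ⟨c, fun i => ⟨fun φ => ?_⟩⟩
    have h01 : K2.Adj 0 1 := by simp
    have := φ.map_adj_iff.2 h01
    have h2 : H.Adj (φ 0).1 (φ 1).1 := this
    have h3 := c.valid h2
    exact h3 ((φ 0).2.trans (φ 1).2.symm)

/-- If `G` has an edge, proper colourings are `G`-free. -/
theorem freeColorable_of_colorable {V W : Type} (G : SimpleGraph V) (H : SimpleGraph W) (k : ℕ)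
    {x y : V} (hxy : G.Adj x y) (h : H.Colorable k) : FreeColorable G H k := by
  obtain ⟨c⟩ := h
  refine ⟨c, fun i => ⟨fun φ => ?_⟩⟩
  have := φ.map_adj_iff.2 hxy
  have h2 : H.Adj (φ x).1 (φ y).1 := this
  exact (c.valid h2) ((φ x).2.trans (φ y).2.symm)

/-- The case of a bipartite graph with at least one edge. -/
theorem related_of_edge {V : Type} [Fintype V] (G : SimpleGraph V) (hG : G.Colorable 2)
    {x y : V} (hxy : G.Adj x y) (l : ℕ) :
    ∃ (W : Type) (_ : Fintype W) (H : SimpleGraph W),
      IsFreeChromaticNumber K2 H l ∧ IsFreeChromaticNumber G H l := by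
  have : Nonempty V := ⟨x⟩
  obtain ⟨W, hW, F, hF⟩ := vertexRamsey' G (Fin l → Fin (l - 1))
  have hcol : (layered F l).Colorable l := ⟨Coloring.mk (fun p => p.2) fun {p q} h => h.2⟩
  have hlow : ∀ k, FreeColorable G (layered F l) k → l ≤ k := by
    rintro k ⟨c, hc⟩
    by_contra hk
    push Not at hk
    have hk' : k ≤ l - 1 := by omega
    obtain ⟨φ, a, ha⟩ := hF (fun w i => Fin.castLE hk' (c (w, i)))
    have hcard : Fintype.card (Fin (l - 1)) < Fintype.card (Fin l) := by
      simp only [Fintype.card_fin]; omega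
    obtain ⟨i, j, hij, haij⟩ := Fintype.exists_ne_map_eq_of_card_lt a hcard
    obtain ⟨b⟩ := hG
    -- the index function
    let idx : V → Fin l := fun v => if b v = 0 then i else j
    have hci : ∀ v, Fin.castLE hk' (c (φ v, idx v)) = a i := by
      intro v
      have h1 : ∀ t, Fin.castLE hk' (c (φ v, t)) = a t := fun t => congrFun (ha v) t
      rw [h1]
      by_cases hb : b v = 0
      · simp [idx, hb]
      · simp [idx, hb, haij]
    have hcc : ∀ v, c (φ v, idx v) = c (φ x, idx x) := by
      intro v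
      apply Fin.castLE_injective hk'
      rw [hci, hci]
    have hidx : ∀ u v, idx u ≠ idx v ↔ b u ≠ b v := by
      intro u v
      have hb2 : ∀ t : Fin 2, t ≠ 0 → t = 1 := by decide
      by_cases hu : b u = 0 <;> by_cases hv : b v = 0
      · simp [idx, hu, hv]
      · have := hb2 _ hv
        simp [idx, hu, this, hij]
      · have := hb2 _ hu
        simp [idx, hv, this, hij.symm]
      · have h1 := hb2 _ hv
        have h2 := hb2 _ hu
        simp [idx, h1, h2]
    refine (hc (c (φ x, idx x))).false
      ⟨⟨fun v => ⟨(φ v, idx v), hcc v⟩, ?_⟩, ?_⟩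
    · intro u v huv
      have := congrArg (fun t => t.1.1) huv
      exact φ.injective this
    · intro u v
      change (F.Adj (φ u) (φ v) ∧ idx u ≠ idx v) ↔ G.Adj u v
      rw [φ.map_adj_iff, hidx]
      constructor
      · exact fun h => h.1
      · exact fun h => ⟨h, b.valid h⟩
  refine ⟨W × Fin l, inferInstance, layered F l, ⟨?_, ?_⟩, ⟨?_, ?_⟩⟩
  · exact (freeColorable_K2_iff _ _).2 hcol
  · intro k hk
    exact hlow k (freeColorable_of_colorable G _ k hxy ((freeColorable_K2_iff _ _).1 hk))
  · exact freeColorable_of_colorable G _ l hxy hcol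
  · intro k hk
    exact hlow k hk

/-- Complete multipartite graph with `l` parts of size `s`. -/
def multi (l s : ℕ) : SimpleGraph (Fin l × Fin s) where
  Adj x y := x.1 ≠ y.1
  symm := ⟨fun x y h => Ne.symm h⟩
  loopless := ⟨fun x h => h rfl⟩

/-- The case of an edgeless graph with at least two vertices. -/
theorem related_of_edgeless {V : Type} [Fintype V] (G : SimpleGraph V)
    (hG : ∀ x y, ¬ G.Adj x y) (hV : 2 ≤ Fintype.card V) (l : ℕ) (hl : 2 ≤ l) :
    ∃ (W : Type) (_ : Fintype W) (H : SimpleGraph W),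
      IsFreeChromaticNumber K2 H l ∧ IsFreeChromaticNumber G H l := by
  obtain ⟨m, hm⟩ : ∃ m, Fintype.card V = m + 2 := ⟨Fintype.card V - 2, by omega⟩
  have hpos : 0 < l * (m + 1) := by positivity
  refine ⟨Fin l × Fin (l * (m + 1)), inferInstance, multi l (l * (m + 1)), ⟨?_, ?_⟩, ⟨?_, ?_⟩⟩
  · exact (freeColorable_K2_iff _ _).2 ⟨Coloring.mk (fun p => p.1) fun {p q} h => h⟩
  · intro k hk
    obtain ⟨c⟩ := (freeColorable_K2_iff _ _).1 hk
    by_contra hlk
    push Not at hlk
    have hcard : Fintype.card (Fin k) < Fintype.card (Fin l) := by simpa using hlk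
    obtain ⟨i, j, hij, heq⟩ :=
      Fintype.exists_ne_map_eq_of_card_lt (fun i : Fin l => c (i, ⟨0, hpos⟩)) hcard
    have hadj : (multi l (l * (m + 1))).Adj (i, ⟨0, hpos⟩) (j, ⟨0, hpos⟩) := hij
    exact c.valid hadj heq
  · -- the upper bound: cut every part into `l` pieces of size `m + 1`
    refine ⟨fun p => ⟨p.2.1 / (m + 1), ?_⟩, fun i => ⟨fun φ => ?_⟩⟩
    · exact Nat.div_lt_of_lt_mul (lt_of_lt_of_eq p.2.2 (Nat.mul_comm _ _))
    · -- all vertices of `G` lie in one part
      have hne : Nonempty V := Fintype.card_pos_iff.1 (by omega)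
      have hpart : ∀ u v : V, (φ u).1.1 = (φ v).1.1 := by
        intro u v
        by_contra h
        have hadj : ((multi l (l * (m + 1))).induce _).Adj (φ u) (φ v) := h
        exact hG u v (φ.map_adj_iff.1 hadj)
      -- map a vertex to its residue modulo `m + 1`
      let f : V → Fin (m + 1) := fun v => ⟨(φ v).1.2.1 % (m + 1), Nat.mod_lt _ (by omega)⟩
      have hcard : Fintype.card (Fin (m + 1)) < Fintype.card V := by
        rw [hm]; simp
      obtain ⟨u, v, huv, hfuv⟩ := Fintype.exists_ne_map_eq_of_card_lt f hcard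
      have h1 : (φ u).1.2.1 / (m + 1) = (φ v).1.2.1 / (m + 1) := by
        have hu := (φ u).2
        have hv := (φ v).2
        have hu' : (⟨(φ u).1.2.1 / (m + 1), _⟩ : Fin l) = i := hu
        have hv' : (⟨(φ v).1.2.1 / (m + 1), _⟩ : Fin l) = i := hv
        have := hu'.trans hv'.symm
        simpa using this
      have h2 : (φ u).1.2.1 % (m + 1) = (φ v).1.2.1 % (m + 1) := by
        simpa [f] using hfuv
      have h3 : (φ u).1.2.1 = (φ v).1.2.1 := by
        rw [← Nat.div_add_mod (φ u).1.2.1 (m + 1), ← Nat.div_add_mod (φ v).1.2.1 (m + 1), h1, h2]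
      have h4 : φ u = φ v := by
        apply Subtype.ext
        apply Prod.ext
        · exact hpart u v
        · exact Fin.ext h3
      exact huv (φ.injective h4)
  · rintro k ⟨c, hc⟩
    by_contra hlk
    push Not at hlk
    have hl0 : 0 < l := by omega
    -- pigeonhole in the part `0`
    have hcard : Fintype.card (Fin k) * (m + 1) < Fintype.card (Fin (l * (m + 1))) := by
      simp only [Fintype.card_fin]
      exact Nat.mul_lt_mul_of_pos_right hlk (by omega)
    classical
    obtain ⟨a, ha⟩ := Fintype.exists_lt_card_fiber_of_mul_lt_card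
      (fun t : Fin (l * (m + 1)) => c (⟨0, hl0⟩, t)) hcard
    have hle : Fintype.card V ≤ Fintype.card
        {t : Fin (l * (m + 1)) // c (⟨0, hl0⟩, t) = a} := by
      rw [Fintype.card_subtype, hm]
      exact ha
    obtain ⟨g⟩ := Function.Embedding.nonempty_of_card_le hle
    refine (hc a).false ⟨⟨fun v => ⟨(⟨0, hl0⟩, (g v).1), (g v).2⟩, ?_⟩, ?_⟩
    · intro u v huv
      have h1 : ((⟨0, hl0⟩ : Fin l), (g u).1) = ((⟨0, hl0⟩ : Fin l), (g v).1) :=
        congrArg (fun t => t.1) huv
      have h2 := (Prod.ext_iff.1 h1).2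
      exact g.injective (Subtype.ext h2)
    · intro u v
      constructor
      · intro h
        exact absurd rfl h
      · intro h
        exact absurd h (hG u v)

/-- **Main theorem.** Every finite bipartite graph `G` with at least two vertices is chromatically
related to `K₂`: for every `l ≥ 2` there is a finite graph `H` with
`χ(H : -K₂) = χ(H : -G) = l`; moreover `χ(H : -K₂)` is the chromatic number of `H`. -/
theorem result :
    (∀ (V : Type) [Fintype V] (G : SimpleGraph V),
      2 ≤ Fintype.card V → G.IsBipartite → Related G K2) ∧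
    (∀ (V : Type) [Fintype V] (G : SimpleGraph V),
      2 ≤ Fintype.card V → G.IsBipartite → ∀ l : ℕ, 2 ≤ l →
        ∃ (W : Type) (_ : Fintype W) (H : SimpleGraph W),
          H.chromaticNumber = l ∧ IsFreeChromaticNumber G H l) := by
  have key : ∀ (V : Type) [Fintype V] (G : SimpleGraph V),
      2 ≤ Fintype.card V → G.IsBipartite → ∀ l : ℕ, 2 ≤ l →
      ∃ (W : Type) (_ : Fintype W) (H : SimpleGraph W),
      IsFreeChromaticNumber K2 H l ∧ IsFreeChromaticNumber G H l := by
    intro V _ G hV hG l hl
    by_cases h : ∃ x y, G.Adj x y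
    · obtain ⟨x, y, hxy⟩ := h
      exact related_of_edge G hG hxy l
    · push Not at h
      exact related_of_edgeless G h hV l hl
  refine ⟨?_, ?_⟩
  · intro V _ G hV hG l hl
    obtain ⟨W, hW, H, h1, h2⟩ := key V G hV hG l hl
    exact ⟨W, hW, H, h2, h1⟩
  · intro V _ G hV hG l hl
    obtain ⟨W, hW, H, h1, h2⟩ := key V G hV hG l hl
    refine ⟨W, hW, H, ?_, h2⟩
    apply le_antisymm
    · exact chromaticNumber_le_iff_colorable.2 ((freeColorable_K2_iff _ _).1 h1.1)
    · rw [le_chromaticNumber_iff_colorable]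
      intro m hm
      exact_mod_cast h1.2 ((freeColorable_K2_iff _ _).2 hm)

end Pool.Agent.Results.MP_fbe9f6_co.BipartiteRelated
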